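import Pool.Agent.Helper68.EP.St5

/-!
# Project EP (MP_cb927e_an), module XEN: measure of the set of points whose chord passes near a family of cells
-/

set_option autoImplicit false

open MeasureTheory Set Filter Topology
open scoped ENNReal RealInnerProductSpace

namespace Pool.Agent.Helper92.EP

open Pool.Agent.Helper68.LM (Pl BB Bd Av HL ft fm DQ)
open Pool.Agent.Helper68.EP Pool.Agent.Helper20.RG
open Pool.Agent.Helper20.RL (RQ Rich BM Fml)

/-- the points at distance at most `c` from a dyadic interval -/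
theorem near_cell_eq (h c : ℝ) (hh : 0 < h) (hc : 0 ≤ c) (m : ℤ) :
    {r : ℝ | ∃ t : ℝ, ⌊t / h⌋ = m ∧ |r - t| ≤ c} = Ico (m * h - c) ((m + 1) * h + c) := by
  ext r
  simp only [Set.mem_ofPred_eq, Set.mem_Ico]
  constructor
  · rintro ⟨t, ht, hr⟩
    rw [Int.floor_eq_iff, le_div_iff₀ hh, div_lt_iff₀ hh] at ht
    rw [abs_le] at hr
    constructor <;> linarith [ht.1, ht.2, hr.1, hr.2]
  · rintro ⟨h1, h2⟩
    by_cases hr : r < m * h
    · refine ⟨m * h, ?_, ?_⟩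
      · rw [mul_div_cancel_right₀ _ hh.ne']
        exact Int.floor_intCast m
      · rw [abs_le]
        constructor <;> linarith
    · rw [not_lt] at hr
      refine ⟨max (m * h) (r - c), ?_, ?_⟩
      · rw [Int.floor_eq_iff, le_div_iff₀ hh, div_lt_iff₀ hh]
        refine ⟨le_max_left _ _, max_lt ?_ ?_⟩
        · nlinarith
        · linarith
      · rw [abs_le]
        constructor
        · have : max (m * h) (r - c) ≤ r := max_le hr (by linarith)
          linarith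
        · have : r - c ≤ max (m * h) (r - c) := le_max_right _ _
          linarith

/-- the set of the points near a point of a union of cells is measurable -/
theorem meas_near (hPT : StPT) (s : ℝ) (a b : ℤ) (p q : ℝ) (hp : 0 ≤ p) (hq : 0 ≤ q) (V : Set Pl)
    (hV : ∀ y ∈ V, RQ s a b y ⊆ V) :
    MeasurableSet {x : Pl | ∃ y ∈ V, |x 0 - y 0| ≤ p ∧ |pr s x - pr s y| ≤ q} := by
  obtain ⟨hpt, -, -, -, -, -, -, -⟩ := hPT
  have hA : (0 : ℝ) < (2 : ℝ) ^ a := by positivity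
  have hB : (0 : ℝ) < (2 : ℝ) ^ b := by positivity
  have h0 : Measurable fun x : Pl => x 0 := by fun_prop
  have h1 : Measurable fun x : Pl => pr s x := by unfold pr; fun_prop
  have hset : {x : Pl | ∃ y ∈ V, |x 0 - y 0| ≤ p ∧ |pr s x - pr s y| ≤ q} =
      ⋃ mn : ℤ × ℤ, ⋃ _ : (∃ y ∈ V, ⌊y 0 / (2 : ℝ) ^ a⌋ = mn.1 ∧ ⌊pr s y / (2 : ℝ) ^ b⌋ = mn.2),
        ((fun x : Pl => x 0) ⁻¹' Ico (mn.1 * (2 : ℝ) ^ a - p) ((mn.1 + 1) * (2 : ℝ) ^ a + p) ∩
        (fun x : Pl => pr s x) ⁻¹' Ico (mn.2 * (2 : ℝ) ^ b - q) ((mn.2 + 1) * (2 : ℝ) ^ b + q)) := by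
    ext x
    simp only [Set.mem_iUnion]
    constructor
    · rintro ⟨y, hy, hx0, hx1⟩
      refine ⟨(⌊y 0 / (2 : ℝ) ^ a⌋, ⌊pr s y / (2 : ℝ) ^ b⌋), ⟨y, hy, rfl, rfl⟩, ?_, ?_⟩
      · rw [Set.mem_preimage, ← near_cell_eq _ _ hA hp]
        exact ⟨y 0, rfl, hx0⟩
      · rw [Set.mem_preimage, ← near_cell_eq _ _ hB hq]
        exact ⟨pr s y, rfl, hx1⟩
    · rintro ⟨⟨m, n⟩, ⟨y, hy, hm, hn⟩, hx0, hx1⟩
      rw [Set.mem_preimage, ← near_cell_eq _ _ hA hp] at hx0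
      rw [Set.mem_preimage, ← near_cell_eq _ _ hB hq] at hx1
      obtain ⟨t, ht, hxt⟩ := hx0
      obtain ⟨t', ht', hxt'⟩ := hx1
      have e0 : (pt t (t' + s * t)) 0 = t := (hpt _ _).1
      have e1 : pr s (pt t (t' + s * t)) = t' := by
        unfold pr
        rw [(hpt _ _).1, (hpt _ _).2]
        ring
      refine ⟨pt t (t' + s * t), hV y hy ⟨?_, ?_⟩, ?_, ?_⟩
      · rw [e0, ht, hm]
      · rw [e1, ht', hn]
      · rw [e0]
        exact hxt
      · rw [e1]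
        exact hxt'
  rw [hset]
  refine MeasurableSet.iUnion fun mn => MeasurableSet.iUnion fun _ => ?_
  exact (h0 measurableSet_Ico).inter (h1 measurableSet_Ico)

theorem hXEN (hPT : Pool.Agent.Helper20.RG.StPT) (hLGR : Pool.Agent.Helper20.RL.StLGR)
    (hLGE : Pool.Agent.Helper20.RL.StLGE) (hEVF : StEVF) : StXEN := by
  intro P Δ ct u j k θ E V' hE hθ hV'
  obtain ⟨hev, -, -, hsub⟩ := hEVF P Δ u j k θ E hE hθ
  obtain ⟨-, hmV, hmw, -⟩ := hsub V' hV'
  set s : ℝ := Δ.sl u j with hs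
  set a : ℤ := k - (u : ℤ) with ha
  set v : Pl := (2 : ℝ) ^ k • ct u j with hv
  -- the part of width `2^w`
  let W : ℤ → Set Pl := fun w => {y | y ∈ V' ∧ Bc P Δ u j k θ E y = w}
  have hW : ∀ w : ℤ, ∀ y ∈ W w, RQ s a w y ⊆ W w := by
    rintro w y ⟨hy, rfl⟩ z hz
    refine ⟨hV'.2 y hy hz, ?_⟩
    exact ((hev y (hV'.1 hy)).2.2.2 z hz).2.1
  let N : ℤ → Set Pl := fun w =>
    {x : Pl | ∃ y ∈ W w, |x 0 - y 0| ≤ 3 * (2 : ℝ) ^ a ∧ |pr s x - pr s y| ≤ 2 * (2 : ℝ) ^ w}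
  have hN : ∀ w, MeasurableSet (N w) := fun w =>
    meas_near hPT s a w _ _ (by positivity) (by positivity) (W w) (hW w)
  have hNv : ∀ w, volume (N w) ≤ 35 * volume (W w) := by
    intro w
    have := hLGE s a w 3 2 (W w) (hW w)
    have h35 : ENNReal.ofReal ((2 * ((3 : ℕ) : ℝ) + 1) * (2 * ((2 : ℕ) : ℝ) + 1)) = 35 := by
      rw [show (2 * ((3 : ℕ) : ℝ) + 1) * (2 * ((2 : ℕ) : ℝ) + 1) = 35 by norm_num]
      exact ENNReal.ofReal_ofNat 35
    rw [h35] at this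
    exact_mod_cast this
  have hX : Xv P Δ ct u j k θ E V' = ⋃ w : ℤ, (fun x : Pl => x - v) ⁻¹' N w := by
    ext x
    simp only [Set.mem_iUnion]
    constructor
    · rintro ⟨y, hy, h1, h2⟩
      exact ⟨Bc P Δ u j k θ E y, y, ⟨hy, rfl⟩, h1, h2⟩
    · rintro ⟨w, y, ⟨hy, rfl⟩, h1, h2⟩
      exact ⟨y, hy, h1, h2⟩
  have hmt : Measurable fun x : Pl => x - v := by fun_prop
  refine ⟨?_, ?_⟩
  · rw [hX]
    exact MeasurableSet.iUnion fun w => hmt (hN w)
  · have hVW : V' = ⋃ w : ℤ, W w := by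
      ext y
      simp only [Set.mem_iUnion]
      exact ⟨fun hy => ⟨_, hy, rfl⟩, fun ⟨_, hy, _⟩ => hy⟩
    have hdis : Pairwise (Function.onFun Disjoint W) := by
      intro w w' hww
      rw [Function.onFun, Set.disjoint_left]
      rintro y ⟨-, h1⟩ ⟨-, h2⟩
      exact hww (h1.symm.trans h2)
    have hvol : ∀ S : Set Pl, volume ((fun x : Pl => x - v) ⁻¹' S) = volume S := fun S => by
      simpa only [← sub_eq_add_neg] using measure_preimage_add_right volume (-v) S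
    calc volume (Xv P Δ ct u j k θ E V')
        = volume (⋃ w : ℤ, (fun x : Pl => x - v) ⁻¹' N w) := by rw [hX]
      _ ≤ ∑' w : ℤ, volume ((fun x : Pl => x - v) ⁻¹' N w) := measure_iUnion_le _
      _ = ∑' w : ℤ, volume (N w) := by simp only [hvol]
      _ ≤ ∑' w : ℤ, 35 * volume (W w) := ENNReal.tsum_le_tsum hNv
      _ = 35 * ∑' w : ℤ, volume (W w) := ENNReal.tsum_mul_left
      _ = 35 * volume V' := by
          rw [← measure_iUnion hdis hmw, ← hVW]

end Pool.Agent.Helper92.EP
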